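import Pool.Agent.Helper60.RT.Defs2

/-!
# Project RT, block C2: push forward to the shears and the values of `T y²`
-/

open MeasureTheory Real Set Filter Topology

set_option autoImplicit false

namespace Pool.Agent.Helper60.RT

open Pool.Agent.Helper60.LT (Fr Tf xf yf df vf fr ac co)

/-! ### formulas -/

/-- first coordinate of `n₁ e₁ + n₂ e₂` -/
private noncomputable def fa93 (e : Fr) (n : ℤ × ℤ) : ℝ := n.1 * e.1.1 + n.2 * e.2.1

/-- second coordinate -/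
private noncomputable def fb93 (e : Fr) (n : ℤ × ℤ) : ℝ := n.1 * e.1.2 + n.2 * e.2.2

private lemma fab93 (e : Fr) {n p : ℤ × ℤ} (h : n.1 * p.2 - n.2 * p.1 = 1) : fa93 e n * fb93 e p - fb93 e n * fa93 e p = df e := by
  have h' : (n.1 : ℝ) * p.2 - n.2 * p.1 = 1 := by exact_mod_cast h
  have : fa93 e n * fb93 e p - fb93 e n * fa93 e p = ((n.1 : ℝ) * p.2 - n.2 * p.1) * df e := by
    unfold fa93 fb93 df; ring
  rw [this, h', one_mul]

/-- the shear of the frame `(n, p)` -/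
private noncomputable def xx93 (e : Fr) (n p : ℤ × ℤ) (s : ℝ) : ℝ :=
  (fa93 e n * fa93 e p + s ^ 2 * (fb93 e n * fb93 e p)) / (fa93 e n ^ 2 + s ^ 2 * fb93 e n ^ 2)

private lemma xf93 (e : Fr) (n p : ℤ × ℤ) (s : ℝ) : xf (ac n p (st s e)) = xx93 e n p s := by
  unfold xf ac vf st xx93 fa93 fb93
  congr 1 <;> ring

private lemma tf93 (e : Fr) (n p : ℤ × ℤ) (s : ℝ) : Tf (ac n p (st s e)) = √(fa93 e n ^ 2 + s ^ 2 * fb93 e n ^ 2) := by
  unfold Tf ac vf st fa93 fb93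
  congr 1; ring

private lemma yf93 (e : Fr) {n p : ℤ × ℤ} (h : n.1 * p.2 - n.2 * p.1 = 1) (s : ℝ) :
    yf (ac n p (st s e)) = s * df e / (fa93 e n ^ 2 + s ^ 2 * fb93 e n ^ 2) := by
  have h' : (n.1 : ℝ) * p.2 - n.2 * p.1 = 1 := by exact_mod_cast h
  have h1 : df (ac n p (st s e)) = s * df e := by
    have : df (ac n p (st s e)) = ((n.1 : ℝ) * p.2 - n.2 * p.1) * (s * df e) := by unfold df ac vf st; ring
    rw [this, h', one_mul]
  have h2 : (ac n p (st s e)).1.1 ^ 2 + (ac n p (st s e)).1.2 ^ 2 = fa93 e n ^ 2 + s ^ 2 * fb93 e n ^ 2 := by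
    unfold ac vf st fa93 fb93; ring
  unfold yf
  rw [h1, h2]

private lemma fa_sp93 (e : Fr) {n : ℤ × ℤ} (hn : 0 < n.1) : fa93 e n = n.1 * l1 e (sp n) ∧ fb93 e n = n.1 * l2 e (sp n) := by
  have h : (n.1 : ℝ) ≠ 0 := by have : (0 : ℝ) < n.1 := by exact_mod_cast hn
                               exact this.ne'
  unfold fa93 fb93 l1 l2 sp
  constructor <;> field_simp

/-! ### bounds -/

private noncomputable def me93 (e : Fr) : ℝ := |e.1.1| + |e.1.2| + |e.2.1| + |e.2.2|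

private lemma me_bds93 (e : Fr) : |e.1.1| ≤ me93 e ∧ |e.1.2| ≤ me93 e ∧ |e.2.1| ≤ me93 e ∧ |e.2.2| ≤ me93 e ∧ 0 ≤ me93 e := by
  unfold me93
  have h1 := abs_nonneg e.1.1
  have h2 := abs_nonneg e.1.2
  have h3 := abs_nonneg e.2.1
  have h4 := abs_nonneg e.2.2
  refine ⟨by linarith, by linarith, by linarith, by linarith, by linarith⟩

private lemma me_pos93 {e : Fr} (he : 0 < df e) : 0 < me93 e := by
  obtain ⟨h1, h2, h3, h4, h5⟩ := me_bds93 e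
  rcases h5.lt_or_eq with h | h
  · exact h
  · exfalso
    have e1 : e.1.1 = 0 := abs_eq_zero.1 (le_antisymm (h1.trans h.ge) (abs_nonneg _))
    have e2 : e.1.2 = 0 := abs_eq_zero.1 (le_antisymm (h2.trans h.ge) (abs_nonneg _))
    unfold df at he
    rw [e1, e2] at he
    simp at he

/-- bounds for `l₁² + s² l₂²` -/
private lemma T2_bds93 {e : Fr} (he : 0 < df e) {B β : ℝ} (hB : 1 ≤ B) (hβ : 1 ≤ β) : ∃ th Th : ℝ, 0 < th ∧ 0 < Th ∧
    ∀ t s : ℝ, |t| ≤ β → s ∈ Icc B⁻¹ B → th ≤ l1 e t ^ 2 + s ^ 2 * l2 e t ^ 2 ∧ l1 e t ^ 2 + s ^ 2 * l2 e t ^ 2 ≤ Th ∧ |l1 e t| ≤ Th ∧ |l2 e t| ≤ Th := by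
  obtain ⟨h1, h2, h3, h4, h5⟩ := me_bds93 e
  have hm := me_pos93 he
  have hB0 : (0 : ℝ) < B := by linarith
  set q : ℝ := me93 e * (1 + β) with hq
  have hq0 : 0 < q := by positivity
  refine ⟨(B ^ 2)⁻¹ * (df e ^ 2 / (2 * me93 e ^ 2)), (1 + B ^ 2) * q ^ 2 + q, by positivity, by positivity, ?_⟩
  intro t s ht hs
  have hs0 : 0 < s := lt_of_lt_of_le (by positivity) hs.1
  have hl1 : |l1 e t| ≤ q := by
    unfold l1
    calc |e.1.1 + t * e.2.1| ≤ |e.1.1| + |t| * |e.2.1| := by rw [← abs_mul]; exact abs_add_le _ _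
      _ ≤ me93 e + β * me93 e := by gcongr
      _ = q := by rw [hq]; ring
  have hl2 : |l2 e t| ≤ q := by
    unfold l2
    calc |e.1.2 + t * e.2.2| ≤ |e.1.2| + |t| * |e.2.2| := by rw [← abs_mul]; exact abs_add_le _ _
      _ ≤ me93 e + β * me93 e := by gcongr
      _ = q := by rw [hq]; ring
  have hl1s : l1 e t ^ 2 ≤ q ^ 2 := by rw [← sq_abs]; gcongr
  have hl2s : l2 e t ^ 2 ≤ q ^ 2 := by rw [← sq_abs]; gcongr
  have hsB : s ^ 2 ≤ B ^ 2 := by have := hs.2; gcongr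
  have hsb : (B ^ 2)⁻¹ ≤ s ^ 2 := by
    rw [← inv_pow]; have := hs.1; gcongr
  have hB1 : (B ^ 2)⁻¹ ≤ 1 := inv_le_one_of_one_le₀ (by nlinarith)
  have hbb : 0 ≤ (B ^ 2)⁻¹ := by positivity
  refine ⟨?_, ?_, ?_, ?_⟩
  · have hdet : df e = l1 e t * e.2.2 - l2 e t * e.2.1 := by unfold df l1 l2; ring
    have hde : df e ≤ (|l1 e t| + |l2 e t|) * me93 e := by
      rw [hdet]
      calc l1 e t * e.2.2 - l2 e t * e.2.1 ≤ |l1 e t * e.2.2 - l2 e t * e.2.1| := le_abs_self _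
        _ ≤ |l1 e t * e.2.2| + |l2 e t * e.2.1| := abs_sub _ _
        _ = |l1 e t| * |e.2.2| + |l2 e t| * |e.2.1| := by rw [abs_mul, abs_mul]
        _ ≤ |l1 e t| * me93 e + |l2 e t| * me93 e := by gcongr
        _ = _ := by ring
    have hsq : df e ^ 2 ≤ 2 * me93 e ^ 2 * (l1 e t ^ 2 + l2 e t ^ 2) := by
      calc df e ^ 2 ≤ ((|l1 e t| + |l2 e t|) * me93 e) ^ 2 := by gcongr
        _ = (|l1 e t| + |l2 e t|) ^ 2 * me93 e ^ 2 := by ring
        _ ≤ (2 * (l1 e t ^ 2 + l2 e t ^ 2)) * me93 e ^ 2 := by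
            gcongr
            have := sq_nonneg (|l1 e t| - |l2 e t|)
            have ha := sq_abs (l1 e t)
            have hb := sq_abs (l2 e t)
            nlinarith
        _ = _ := by ring
    have hkey : df e ^ 2 / (2 * me93 e ^ 2) ≤ l1 e t ^ 2 + l2 e t ^ 2 := by
      rw [div_le_iff₀ (by positivity)]; linarith
    calc (B ^ 2)⁻¹ * (df e ^ 2 / (2 * me93 e ^ 2)) ≤ (B ^ 2)⁻¹ * (l1 e t ^ 2 + l2 e t ^ 2) := by gcongr
      _ = (B ^ 2)⁻¹ * l1 e t ^ 2 + (B ^ 2)⁻¹ * l2 e t ^ 2 := by ring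
      _ ≤ 1 * l1 e t ^ 2 + s ^ 2 * l2 e t ^ 2 := by gcongr
      _ = _ := by ring
  · calc l1 e t ^ 2 + s ^ 2 * l2 e t ^ 2 ≤ q ^ 2 + B ^ 2 * q ^ 2 := by gcongr
      _ ≤ _ := by nlinarith
  · refine hl1.trans ?_
    have : 0 ≤ (1 + B ^ 2) * q ^ 2 := by positivity
    linarith
  · refine hl2.trans ?_
    have : 0 ≤ (1 + B ^ 2) * q ^ 2 := by positivity
    linarith

/-! ### the number of frames with a given shear -/

/-- the second vector is close to `x` times the first -/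
private lemma near93 {e : Fr} (he : 0 < df e) {B β : ℝ} (hB : 1 ≤ B) (hβ : 1 ≤ β) : ∃ C : ℝ, 1 ≤ C ∧
    ∀ (U s x : ℝ) (n p : ℤ × ℤ), 1 ≤ U → 0 < n.1 → U ≤ β * n.1 → (n.1 : ℝ) ≤ β * U → |sp n| ≤ β → n.1 * p.2 - n.2 * p.1 = 1 → s ∈ Icc B⁻¹ B →
      xx93 e n p s = x → |(n.1 : ℝ)| ≤ C * U ∧ |(n.2 : ℝ)| ≤ C * U ∧ |(p.1 : ℝ) - x * n.1| ≤ C / U ∧ |(p.2 : ℝ) - x * n.2| ≤ C / U := by
  obtain ⟨th, Th, hth, hTh, hT⟩ := T2_bds93 he hB hβ
  obtain ⟨m1, m2, m3, m4, m5⟩ := me_bds93 e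
  have hB0 : (0 : ℝ) < B := by linarith
  have hβ0 : (0 : ℝ) < β := by linarith
  set D : ℝ := B ^ 2 * Th * df e * β / th with hD
  have hD0 : 0 < D := by positivity
  refine ⟨1 + β ^ 2 + 2 * me93 e * D / df e, ?_, ?_⟩
  · have : 0 ≤ β ^ 2 + 2 * me93 e * D / df e := by positivity
    linarith
  intro U s x n p hU hn hn1 hn2 hsp hdet hs hx
  have hU0 : 0 < U := by linarith
  have hnR : (0 : ℝ) < n.1 := by exact_mod_cast hn
  have hs0 : 0 < s := lt_of_lt_of_le (by positivity) hs.1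
  obtain ⟨hlo, hhi, hl1, hl2⟩ := hT (sp n) s hsp hs
  obtain ⟨ea, eb⟩ := fa_sp93 e hn
  set a := fa93 e n with ha
  set b := fb93 e n with hb
  set a' := fa93 e p with ha'
  set b' := fb93 e p with hb'
  have hd : a * b' - b * a' = df e := fab93 e hdet
  have hN : a ^ 2 + s ^ 2 * b ^ 2 = n.1 ^ 2 * (l1 e (sp n) ^ 2 + s ^ 2 * l2 e (sp n) ^ 2) := by rw [ea, eb]; ring
  have hNlo : (n.1 : ℝ) ^ 2 * th ≤ a ^ 2 + s ^ 2 * b ^ 2 := by rw [hN]; gcongr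
  have hN0 : 0 < a ^ 2 + s ^ 2 * b ^ 2 := lt_of_lt_of_le (by positivity) hNlo
  have hxe : x = (a * a' + s ^ 2 * (b * b')) / (a ^ 2 + s ^ 2 * b ^ 2) := by rw [← hx]; rfl
  have h1 : a' - x * a = -(s ^ 2 * b * df e) / (a ^ 2 + s ^ 2 * b ^ 2) := by
    rw [hxe, ← hd]; field_simp; ring
  have h2 : b' - x * b = a * df e / (a ^ 2 + s ^ 2 * b ^ 2) := by
    rw [hxe, ← hd]; field_simp; ring
  have hab : |a| ≤ n.1 * Th := by rw [ea, abs_mul, abs_of_pos hnR]; gcongr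
  have hbb : |b| ≤ n.1 * Th := by rw [eb, abs_mul, abs_of_pos hnR]; gcongr
  have hgen : ∀ z : ℝ, |z| ≤ B ^ 2 * (n.1 * Th) → |z * df e / (a ^ 2 + s ^ 2 * b ^ 2)| ≤ D / U := by
    intro z hz
    rw [abs_div, abs_of_pos hN0, abs_mul, abs_of_pos he, div_le_div_iff₀ hN0 hU0, hD]
    calc |z| * df e * U ≤ (B ^ 2 * (n.1 * Th)) * df e * (β * n.1) := by gcongr
      _ = B ^ 2 * Th * df e * β / th * ((n.1 : ℝ) ^ 2 * th) := by field_simp
      _ ≤ B ^ 2 * Th * df e * β / th * (a ^ 2 + s ^ 2 * b ^ 2) := by gcongr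
  have hB1 : 1 ≤ B ^ 2 := by nlinarith
  have h3 : |a' - x * a| ≤ D / U := by
    rw [h1]
    have : -(s ^ 2 * b * df e) / (a ^ 2 + s ^ 2 * b ^ 2) = (-(s ^ 2 * b)) * df e / (a ^ 2 + s ^ 2 * b ^ 2) := by ring
    rw [this]
    refine hgen _ ?_
    rw [abs_neg, abs_mul, abs_of_nonneg (by positivity : (0 : ℝ) ≤ s ^ 2)]
    have := hs.2
    gcongr
  have h4 : |b' - x * b| ≤ D / U := by
    rw [h2]
    refine hgen _ (hab.trans ?_)
    nlinarith [mul_pos hnR hTh]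
  have hp1 : (p.1 : ℝ) - x * n.1 = ((a' - x * a) * e.2.2 - (b' - x * b) * e.2.1) / df e := by
    rw [eq_div_iff he.ne', ha, hb, ha', hb']
    unfold fa93 fb93 df; ring
  have hp2 : (p.2 : ℝ) - x * n.2 = ((b' - x * b) * e.1.1 - (a' - x * a) * e.1.2) / df e := by
    rw [eq_div_iff he.ne', ha, hb, ha', hb']
    unfold fa93 fb93 df; ring
  have hgen2 : ∀ u v w z : ℝ, |u| ≤ D / U → |v| ≤ D / U → |w| ≤ me93 e → |z| ≤ me93 e → |(u * w - v * z) / df e| ≤ (1 + β ^ 2 + 2 * me93 e * D / df e) / U := by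
    intro u v w z hu hv hw hz
    rw [abs_div, abs_of_pos he]
    calc |u * w - v * z| / df e ≤ (|u| * |w| + |v| * |z|) / df e := by
          gcongr
          rw [← abs_mul, ← abs_mul]; exact abs_sub _ _
      _ ≤ (D / U * me93 e + D / U * me93 e) / df e := by gcongr
      _ = (2 * me93 e * D / df e) / U := by field_simp; ring
      _ ≤ _ := by
          gcongr
          have : 0 ≤ β ^ 2 := by positivity
          linarith
  have hC : β ^ 2 ≤ 1 + β ^ 2 + 2 * me93 e * D / df e := by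
    have : 0 ≤ 2 * me93 e * D / df e := by positivity
    linarith
  have hββ : β ≤ β ^ 2 := by nlinarith
  refine ⟨?_, ?_, ?_, ?_⟩
  · rw [abs_of_pos hnR]
    calc (n.1 : ℝ) ≤ β * U := hn2
      _ ≤ _ := by gcongr; linarith
  · have : (n.2 : ℝ) = sp n * n.1 := by unfold sp; field_simp
    rw [this, abs_mul, abs_of_pos hnR]
    calc |sp n| * (n.1 : ℝ) ≤ β * (β * U) := by gcongr
      _ = β ^ 2 * U := by ring
      _ ≤ _ := by gcongr
  · rw [hp1]; exact hgen2 _ _ _ _ h3 h4 m4 m3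
  · rw [hp2]; exact hgen2 _ _ _ _ h4 h3 m1 m2

/-- a box of integer quadruples -/
private noncomputable def bx93 (k : ℤ) : Finset ((ℤ × ℤ) × (ℤ × ℤ)) := (Finset.Icc (-k) k ×ˢ Finset.Icc (-k) k) ×ˢ (Finset.Icc (-k) k ×ˢ Finset.Icc (-k) k)

private lemma card93 {C U x : ℝ} (hC : 1 ≤ C) (hU : 1 ≤ U) (Z : Finset ((ℤ × ℤ) × (ℤ × ℤ)))
    (hZ : ∀ z ∈ Z, z.1.1 * z.2.2 - z.1.2 * z.2.1 = 1 ∧ |(z.1.1 : ℝ)| ≤ C * U ∧ |(z.1.2 : ℝ)| ≤ C * U ∧ |(z.2.1 : ℝ) - x * z.1.1| ≤ C / U ∧ |(z.2.2 : ℝ) - x * z.1.2| ≤ C / U) :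
    Z.card ≤ (bx93 ⌊2 * C ^ 2⌋).card := by
  rcases Z.eq_empty_or_nonempty with h | ⟨w, hw⟩
  · simp [h]
  have hU0 : 0 < U := by linarith
  have hC0 : 0 < C := by linarith
  obtain ⟨dw, w1, w2, w3, w4⟩ := hZ w hw
  refine Finset.card_le_card_of_injOn
    (fun z => ((w.1.1 * z.2.1 - w.2.1 * z.1.1, w.1.1 * z.2.2 - w.2.1 * z.1.2), (w.1.2 * z.2.1 - w.2.2 * z.1.1, w.1.2 * z.2.2 - w.2.2 * z.1.2))) ?_ ?_
  · intro z hz
    obtain ⟨dz, z1, z2, z3, z4⟩ := hZ z hz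
    have key : ∀ (n n' p p' : ℤ), |(n : ℝ)| ≤ C * U → |(n' : ℝ) - x * n| ≤ C / U → |(p : ℝ)| ≤ C * U → |(p' : ℝ) - x * p| ≤ C / U →
        n * p' - n' * p ∈ Finset.Icc (-⌊2 * C ^ 2⌋) ⌊2 * C ^ 2⌋ := by
      intro n n' p p' h1 h2 h3 h4
      have h5 : |((n * p' - n' * p : ℤ) : ℝ)| ≤ 2 * C ^ 2 := by
        have e1 : ((n * p' - n' * p : ℤ) : ℝ) = n * ((p' : ℝ) - x * p) - ((n' : ℝ) - x * n) * p := by push_cast; ring
        rw [e1]
        calc |(n : ℝ) * ((p' : ℝ) - x * p) - ((n' : ℝ) - x * n) * p| ≤ |(n : ℝ)| * |(p' : ℝ) - x * p| + |(n' : ℝ) - x * n| * |(p : ℝ)| := by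
              rw [← abs_mul, ← abs_mul]; exact abs_sub _ _
          _ ≤ C * U * (C / U) + C / U * (C * U) := by gcongr
          _ = 2 * C ^ 2 := by field_simp; ring
      obtain ⟨h6, h7⟩ := abs_le.1 h5
      rw [Finset.mem_Icc]
      constructor
      · have : -(n * p' - n' * p) ≤ ⌊2 * C ^ 2⌋ := Int.le_floor.2 (by push_cast at h6 ⊢; linarith)
        linarith
      · exact Int.le_floor.2 h7
    simp only [bx93, Finset.coe_product, Set.mem_prod, Finset.mem_coe]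
    exact ⟨⟨key _ _ _ _ w1 w3 z1 z3, key _ _ _ _ w1 w3 z2 z4⟩, key _ _ _ _ w2 w4 z1 z3, key _ _ _ _ w2 w4 z2 z4⟩
  · intro z hz z' hz' hzz
    simp only [Prod.mk.injEq] at hzz
    obtain ⟨⟨h1, h2⟩, h3, h4⟩ := hzz
    have e1 : z.1.1 = z'.1.1 := by
      have a1 : z.1.1 * (w.1.1 * w.2.2 - w.1.2 * w.2.1) = w.1.2 * (w.1.1 * z.2.1 - w.2.1 * z.1.1) - w.1.1 * (w.1.2 * z.2.1 - w.2.2 * z.1.1) := by ring
      have a2 : z'.1.1 * (w.1.1 * w.2.2 - w.1.2 * w.2.1) = w.1.2 * (w.1.1 * z'.2.1 - w.2.1 * z'.1.1) - w.1.1 * (w.1.2 * z'.2.1 - w.2.2 * z'.1.1) := by ring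
      rw [dw, mul_one] at a1 a2
      rw [a1, a2, h1, h3]
    have e2 : z.1.2 = z'.1.2 := by
      have a1 : z.1.2 * (w.1.1 * w.2.2 - w.1.2 * w.2.1) = w.1.2 * (w.1.1 * z.2.2 - w.2.1 * z.1.2) - w.1.1 * (w.1.2 * z.2.2 - w.2.2 * z.1.2) := by ring
      have a2 : z'.1.2 * (w.1.1 * w.2.2 - w.1.2 * w.2.1) = w.1.2 * (w.1.1 * z'.2.2 - w.2.1 * z'.1.2) - w.1.1 * (w.1.2 * z'.2.2 - w.2.2 * z'.1.2) := by ring
      rw [dw, mul_one] at a1 a2
      rw [a1, a2, h2, h4]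
    have e3 : z.2.1 = z'.2.1 := by
      have a1 : z.2.1 * (w.1.1 * w.2.2 - w.1.2 * w.2.1) = w.2.2 * (w.1.1 * z.2.1 - w.2.1 * z.1.1) - w.2.1 * (w.1.2 * z.2.1 - w.2.2 * z.1.1) := by ring
      have a2 : z'.2.1 * (w.1.1 * w.2.2 - w.1.2 * w.2.1) = w.2.2 * (w.1.1 * z'.2.1 - w.2.1 * z'.1.1) - w.2.1 * (w.1.2 * z'.2.1 - w.2.2 * z'.1.1) := by ring
      rw [dw, mul_one] at a1 a2
      rw [a1, a2, h1, h3]
    have e4 : z.2.2 = z'.2.2 := by
      have a1 : z.2.2 * (w.1.1 * w.2.2 - w.1.2 * w.2.1) = w.2.2 * (w.1.1 * z.2.2 - w.2.1 * z.1.2) - w.2.1 * (w.1.2 * z.2.2 - w.2.2 * z.1.2) := by ring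
      have a2 : z'.2.2 * (w.1.1 * w.2.2 - w.1.2 * w.2.1) = w.2.2 * (w.1.1 * z'.2.2 - w.2.1 * z'.1.2) - w.2.1 * (w.1.2 * z'.2.2 - w.2.2 * z'.1.2) := by ring
      rw [dw, mul_one] at a1 a2
      rw [a1, a2, h2, h4]
    exact Prod.ext (Prod.ext e1 e2) (Prod.ext e3 e4)

/-! ### periodization -/

private lemma per93 {F : ℝ → ENNReal} (hF : Measurable F) : ∫⁻ x, F x = ∫⁻ x in Ico (0 : ℝ) 1, ∑' m : ℤ, F (x + m) := by
  have hsw : ∫⁻ x in Ico (0 : ℝ) 1, ∑' m : ℤ, F (x + m) = ∑' m : ℤ, ∫⁻ x in Ico (0 : ℝ) 1, F (x + m) :=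
    lintegral_tsum (fun m => (hF.comp (measurable_id.add_const (m : ℝ))).aemeasurable)
  rw [hsw]
  calc ∫⁻ x, F x = ∫⁻ x in ⋃ m : ℤ, Ico (m : ℝ) (m + 1), F x := by rw [iUnion_Ico_intCast, Measure.restrict_univ]
    _ = ∑' m : ℤ, ∫⁻ x in Ico (m : ℝ) (m + 1), F x := lintegral_iUnion (fun _ => measurableSet_Ico) (pairwise_disjoint_Ico_intCast ℝ) _
    _ = ∑' m : ℤ, ∫⁻ x in Ico (0 : ℝ) 1, F (x + m) := by
        congr 1; ext m
        have h := (measurePreserving_add_right volume (m : ℝ)).setLIntegral_comp_preimage (s := Ico (m : ℝ) (m + 1)) measurableSet_Ico hF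
        rw [← h]
        congr 2
        rw [Set.preimage_add_const_Ico]
        simp

/-! ### the derivative of the shear -/

private lemma N_pos93 {e : Fr} (he : 0 < df e) {n p : ℤ × ℤ} (h : n.1 * p.2 - n.2 * p.1 = 1) {s : ℝ} (hs : 0 < s) : 0 < fa93 e n ^ 2 + s ^ 2 * fb93 e n ^ 2 := by
  have hd := fab93 e h
  rcases eq_or_ne (fa93 e n) 0 with ha | ha
  · have hb : fb93 e n ≠ 0 := by
      intro hb
      rw [ha, hb] at hd; simp at hd; linarith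
    have : 0 < fb93 e n ^ 2 := by positivity
    have h2 : 0 < s ^ 2 * fb93 e n ^ 2 := by positivity
    have h3 : 0 ≤ fa93 e n ^ 2 := by positivity
    linarith
  · have h1 : 0 < fa93 e n ^ 2 := by positivity
    have h2 : 0 ≤ s ^ 2 * fb93 e n ^ 2 := by positivity
    linarith

private lemma deriv93 {e : Fr} (he : 0 < df e) {n p : ℤ × ℤ} (h : n.1 * p.2 - n.2 * p.1 = 1) {s : ℝ} (hs : 0 < s) :
    HasDerivAt (xx93 e n p) (2 * s * (fa93 e n * fb93 e n) * df e / (fa93 e n ^ 2 + s ^ 2 * fb93 e n ^ 2) ^ 2) s := by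
  have hN := N_pos93 he h hs
  have hd := fab93 e h
  have h1 : HasDerivAt (fun s : ℝ => fa93 e n * fa93 e p + s ^ 2 * (fb93 e n * fb93 e p)) (2 * s * (fb93 e n * fb93 e p)) s := by
    have := (((hasDerivAt_pow 2 s).mul_const (fb93 e n * fb93 e p)).const_add (fa93 e n * fa93 e p))
    simpa using this
  have h2 : HasDerivAt (fun s : ℝ => fa93 e n ^ 2 + s ^ 2 * fb93 e n ^ 2) (2 * s * fb93 e n ^ 2) s := by
    have := (((hasDerivAt_pow 2 s).mul_const (fb93 e n ^ 2)).const_add (fa93 e n ^ 2))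
    simpa using this
  have h3 := h1.div h2 hN.ne'
  refine (h3.congr_deriv ?_)
  rw [← hd]
  congr 1; ring

private lemma inj93 {e : Fr} (he : 0 < df e) {n p : ℤ × ℤ} (h : n.1 * p.2 - n.2 * p.1 = 1) (hab : fa93 e n * fb93 e n ≠ 0) {s s' : ℝ} (hs : 0 < s) (hs' : 0 < s')
    (hx : xx93 e n p s = xx93 e n p s') : s = s' := by
  have hN := N_pos93 he h hs
  have hN' := N_pos93 he h hs'
  have hd := fab93 e h
  unfold xx93 at hx
  rw [div_eq_div_iff hN.ne' hN'.ne'] at hx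
  have h1 : (s ^ 2 - s' ^ 2) * (fa93 e n * fb93 e n * df e) = 0 := by rw [← hd]; linear_combination hx
  have h2 : s ^ 2 - s' ^ 2 = 0 := by
    rcases mul_eq_zero.1 h1 with h2 | h2
    · exact h2
    · exact absurd h2 (mul_ne_zero hab he.ne')
  have h3 : (s - s') * (s + s') = 0 := by linear_combination h2
  rcases mul_eq_zero.1 h3 with h4 | h4
  · linarith
  · linarith

private lemma xx_shift93 {e : Fr} (he : 0 < df e) {n p : ℤ × ℤ} (h : n.1 * p.2 - n.2 * p.1 = 1) {s : ℝ} (hs : 0 < s) (m : ℤ) :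
    xx93 e n (p.1 - m * n.1, p.2 - m * n.2) s = xx93 e n p s - m := by
  have hN := N_pos93 he h hs
  have h1 : fa93 e (p.1 - m * n.1, p.2 - m * n.2) = fa93 e p - m * fa93 e n := by unfold fa93; push_cast; ring
  have h2 : fb93 e (p.1 - m * n.1, p.2 - m * n.2) = fb93 e p - m * fb93 e n := by unfold fb93; push_cast; ring
  unfold xx93
  rw [h1, h2]
  field_simp
  ring

/-- bounds for `T y²` and for the derivative of the shear -/
private lemma bds93 {e : Fr} (he : 0 < df e) {B β : ℝ} (hB : 1 ≤ B) (hβ : 1 ≤ β) : ∃ c₀ C₀ c₁ : ℝ, 0 < c₀ ∧ 0 < C₀ ∧ 0 < c₁ ∧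
    ∀ (U σ s : ℝ) (n : ℤ × ℤ), 1 ≤ U → 0 < σ → Pr n → U ≤ β * n.1 → (n.1 : ℝ) ≤ β * U → |sp n| ≤ β → σ ≤ |l1 e (sp n) * l2 e (sp n)| → s ∈ Icc B⁻¹ B →
      c₀ / U ^ 3 ≤ yn e n s ∧ yn e n s ≤ C₀ / U ^ 3 ∧ fa93 e n * fb93 e n ≠ 0 ∧
        c₁ * σ / U ^ 2 ≤ |2 * s * (fa93 e n * fb93 e n) * df e / (fa93 e n ^ 2 + s ^ 2 * fb93 e n ^ 2) ^ 2| := by
  obtain ⟨th, Th, hth, hTh, hT⟩ := T2_bds93 he hB hβ
  have hB0 : (0 : ℝ) < B := by linarith
  have hβ0 : (0 : ℝ) < β := by linarith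
  refine ⟨√th * df e ^ 2 / (β ^ 5 * B ^ 2 * Th ^ 2), β ^ 5 * √Th * B ^ 2 * df e ^ 2 / th ^ 2, 2 * df e / (B * β ^ 2 * Th ^ 2), by positivity, by positivity, by positivity, ?_⟩
  intro U σ s n hU hσ hPr hn1 hn2 hsp hσl hs
  have hU0 : 0 < U := by linarith
  have hn := hPr.2
  have hnR : (0 : ℝ) < n.1 := by exact_mod_cast hn
  have hs0 : 0 < s := lt_of_lt_of_le (by positivity) hs.1
  have hdet := Pool.Agent.Helper60.LT.co_spec hPr.1
  obtain ⟨hlo, hhi, hl1, hl2⟩ := hT (sp n) s hsp hs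
  obtain ⟨ea, eb⟩ := fa_sp93 e hn
  set N : ℝ := fa93 e n ^ 2 + s ^ 2 * fb93 e n ^ 2 with hNdef
  have hN : N = n.1 ^ 2 * (l1 e (sp n) ^ 2 + s ^ 2 * l2 e (sp n) ^ 2) := by rw [hNdef, ea, eb]; ring
  have hNlo : (n.1 : ℝ) ^ 2 * th ≤ N := by rw [hN]; gcongr
  have hNhi : N ≤ (n.1 : ℝ) ^ 2 * Th := by rw [hN]; gcongr
  have hN0 : 0 < N := lt_of_lt_of_le (by positivity) hNlo
  have hn1' : U / β ≤ n.1 := by rw [div_le_iff₀ hβ0]; linarith
  have hNlo2 : (U / β) ^ 2 * th ≤ N := le_trans (by gcongr) hNlo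
  have hNhi2 : N ≤ (β * U) ^ 2 * Th := hNhi.trans (by gcongr)
  have hyn : yn e n s = √N * (s ^ 2 * df e ^ 2) / N ^ 2 := by
    unfold yn
    rw [tf93, yf93 e hdet, ← hNdef]
    field_simp
  have hsq1 : √N ≤ β * U * √Th := by
    calc √N ≤ √((β * U) ^ 2 * Th) := by gcongr
      _ = _ := by rw [Real.sqrt_mul (by positivity), Real.sqrt_sq (by positivity)]
  have hsq2 : U / β * √th ≤ √N := by
    calc U / β * √th = √((U / β) ^ 2 * th) := by rw [Real.sqrt_mul (by positivity), Real.sqrt_sq (by positivity)]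
      _ ≤ √N := by gcongr
  have hsB : s ^ 2 ≤ B ^ 2 := by have := hs.2; gcongr
  have hsb : (B ^ 2)⁻¹ ≤ s ^ 2 := by
    rw [← inv_pow]; have := hs.1; gcongr
  have hab : |fa93 e n * fb93 e n| = (n.1 : ℝ) ^ 2 * |l1 e (sp n) * l2 e (sp n)| := by
    rw [ea, eb]
    have : (n.1 : ℝ) * l1 e (sp n) * (n.1 * l2 e (sp n)) = (n.1 : ℝ) ^ 2 * (l1 e (sp n) * l2 e (sp n)) := by ring
    rw [this, abs_mul, abs_of_pos (by positivity : (0 : ℝ) < (n.1 : ℝ) ^ 2)]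
  have hab2 : (n.1 : ℝ) ^ 2 * σ ≤ |fa93 e n * fb93 e n| := by rw [hab]; gcongr
  have hab3 : 0 < |fa93 e n * fb93 e n| := lt_of_lt_of_le (by positivity) hab2
  refine ⟨?_, ?_, abs_pos.1 hab3, ?_⟩
  · rw [hyn]
    calc √th * df e ^ 2 / (β ^ 5 * B ^ 2 * Th ^ 2) / U ^ 3 = (U / β * √th) * ((B ^ 2)⁻¹ * df e ^ 2) / ((β * U) ^ 2 * Th) ^ 2 := by
          field_simp
      _ ≤ √N * (s ^ 2 * df e ^ 2) / N ^ 2 := by gcongr
  · rw [hyn]
    calc √N * (s ^ 2 * df e ^ 2) / N ^ 2 ≤ (β * U * √Th) * (B ^ 2 * df e ^ 2) / ((U / β) ^ 2 * th) ^ 2 := by gcongr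
      _ = _ := by field_simp
  · rw [abs_div, abs_mul, abs_mul, abs_of_pos he, abs_of_pos (by positivity : 0 < 2 * s), abs_of_pos (by positivity : 0 < N ^ 2)]
    calc 2 * df e / (B * β ^ 2 * Th ^ 2) * σ / U ^ 2 = 2 * B⁻¹ * σ * df e / ((β * U) ^ 2 * Th ^ 2) := by field_simp
      _ ≤ 2 * B⁻¹ * σ * df e / ((n.1 : ℝ) ^ 2 * Th ^ 2) := by gcongr
      _ = 2 * B⁻¹ * ((n.1 : ℝ) ^ 2 * σ) * df e / ((n.1 : ℝ) ^ 2 * Th) ^ 2 := by field_simp
      _ ≤ 2 * s * |fa93 e n * fb93 e n| * df e / N ^ 2 := by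
          have := hs.1
          gcongr

/-- C2: push forward to the shears and the values of `T y²`, all `n` of height about `U` together -/
theorem push_sum {e : Fr} (he : 0 < df e) {B β : ℝ} (hB : 1 ≤ B) (hβ : 1 ≤ β) : ∃ C : ℝ, 1 ≤ C ∧
    ∀ (U σ X : ℝ) (ns : Finset (ℤ × ℤ)) (G : ℝ → ℝ → ENNReal), 1 ≤ U → 0 < σ → 0 < X →
      (∀ n ∈ ns, Pr n ∧ U ≤ β * n.1 ∧ (n.1 : ℝ) ≤ β * U ∧ |sp n| ≤ β ∧ σ ≤ |l1 e (sp n) * l2 e (sp n)|) →
      Measurable (fun q : ℝ × ℝ => G q.1 q.2) → (∀ Y x, G Y (x + 1) = G Y x) →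
        ∑ n ∈ ns, ∫⁻ s in Icc B⁻¹ B, ∫⁻ r in Icc (X / B) (B * X), G (r * yn e n s) (xn e n s) ≤
          ENNReal.ofReal (C * U ^ 5 / σ) * ∫⁻ x in Ico (0 : ℝ) 1, ∫⁻ Y in Icc (X / (C * U ^ 3)) (C * X / U ^ 3), G Y x := by
  classical
  obtain ⟨C₁, hC₁, hnear⟩ := near93 he hB hβ
  obtain ⟨c₀, C₀, c₁, hc₀, hC₀, hc₁, hb⟩ := bds93 he hB hβ
  set Q : ℕ := (bx93 ⌊2 * C₁ ^ 2⌋).card with hQ
  have hB0 : (0 : ℝ) < B := by linarith
  have hβ0 : (0 : ℝ) < β := by linarith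
  set C : ℝ := 1 + B * C₀ + B / c₀ + Q / (c₀ * c₁) with hC
  have hQ0 : (0 : ℝ) ≤ Q := Nat.cast_nonneg _
  have hCa : B * C₀ ≤ C := by
    have h1 : 0 ≤ B / c₀ := by positivity
    have h2 : 0 ≤ Q / (c₀ * c₁) := by positivity
    linarith
  have hCb : B / c₀ ≤ C := by
    have h1 : 0 ≤ B * C₀ := by positivity
    have h2 : 0 ≤ Q / (c₀ * c₁) := by positivity
    linarith
  have hCc : Q / (c₀ * c₁) ≤ C := by
    have h1 : 0 ≤ B * C₀ := by positivity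
    have h2 : 0 ≤ B / c₀ := by positivity
    linarith
  have hC1 : 1 ≤ C := by
    have h1 : 0 ≤ B * C₀ := by positivity
    have h2 : 0 ≤ B / c₀ := by positivity
    have h3 : 0 ≤ Q / (c₀ * c₁) := by positivity
    linarith
  have hCpos : 0 < C := by linarith
  refine ⟨C, hC1, ?_⟩
  intro U σ X ns G hU hσ hX hns hG hper
  have hU0 : 0 < U := by linarith
  set J : Set ℝ := Icc (X / (C * U ^ 3)) (C * X / U ^ 3) with hJ
  set Φ : ℝ → ENNReal := fun x => ∫⁻ Y in J, G Y x with hΦ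
  have hΦm : Measurable Φ := by
    have h1 : Measurable (fun q : ℝ × ℝ => G q.2 q.1) := hG.comp measurable_swap
    exact h1.lintegral_prod_right'
  have hΦp : Function.Periodic Φ 1 := fun x => by simp only [hΦ, hper]
  have hΦz : ∀ (m : ℤ) (x : ℝ), Φ (x + m) = Φ x := fun m x => by
    have := hΦp.int_mul m x
    rwa [mul_one] at this
  -- one `n`
  have hxn : ∀ (n : ℤ × ℤ), xn e n = xx93 e n (co n) := fun n => by
    funext s
    unfold xn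
    exact xf93 e n (co n) s
  have hcont : ∀ n ∈ ns, IsCompact (xn e n '' Icc B⁻¹ B) := by
    intro n hn
    have hdet := Pool.Agent.Helper60.LT.co_spec (hns n hn).1.1
    refine isCompact_Icc.image_of_continuousOn fun s hs => ?_
    have hs0 : 0 < s := lt_of_lt_of_le (by positivity) hs.1
    rw [hxn]
    exact (deriv93 he hdet hs0).continuousAt.continuousWithinAt
  have hinner : ∀ n ∈ ns, ∀ s ∈ Icc B⁻¹ B, ∀ x : ℝ, ∫⁻ r in Icc (X / B) (B * X), G (r * yn e n s) x ≤ ENNReal.ofReal (U ^ 3 / c₀) * Φ x := by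
    intro n hn s hs x
    obtain ⟨hPr, hn1, hn2, hsp, hσl⟩ := hns n hn
    obtain ⟨hy1, hy2, hab, hx'⟩ := hb U σ s n hU hσ hPr hn1 hn2 hsp hσl hs
    have hy0 : 0 < yn e n s := lt_of_lt_of_le (by positivity) hy1
    set y := yn e n s with hy
    have himg := lintegral_image_eq_lintegral_abs_deriv_mul (s := Icc (X / B) (B * X)) (f := fun r : ℝ => r * y) (f' := fun _ => y) measurableSet_Icc
      (fun r _ => (by simpa using (hasDerivAt_id r).mul_const y : HasDerivAt (fun r : ℝ => r * y) y r).hasDerivWithinAt)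
      (fun r _ r' _ h => mul_right_cancel₀ hy0.ne' h) (fun Y => G Y x)
    rw [abs_of_pos hy0, lintegral_const_mul' _ _ ENNReal.ofReal_ne_top] at himg
    have hsub : (fun r : ℝ => r * y) '' Icc (X / B) (B * X) ⊆ J := by
      rintro _ ⟨r, hr, rfl⟩
      rw [hJ]
      have hr0 : 0 < r := lt_of_lt_of_le (by positivity) hr.1
      constructor
      · calc X / (C * U ^ 3) ≤ X / (B / c₀ * U ^ 3) := by gcongr
          _ = X / B * (c₀ / U ^ 3) := by field_simp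
          _ ≤ r * y := by have := hr.1; gcongr
      · calc r * y ≤ B * X * (C₀ / U ^ 3) := by have := hr.2; gcongr
          _ = B * C₀ * X / U ^ 3 := by ring
          _ ≤ C * X / U ^ 3 := by gcongr
    have h1 : ENNReal.ofReal y * ∫⁻ r in Icc (X / B) (B * X), G (r * y) x ≤ Φ x := by
      rw [← himg]
      exact lintegral_mono_set hsub
    calc ∫⁻ r in Icc (X / B) (B * X), G (r * y) x = ENNReal.ofReal y⁻¹ * (ENNReal.ofReal y * ∫⁻ r in Icc (X / B) (B * X), G (r * y) x) := by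
          rw [← mul_assoc, ← ENNReal.ofReal_mul (by positivity), inv_mul_cancel₀ hy0.ne', ENNReal.ofReal_one, one_mul]
      _ ≤ ENNReal.ofReal (U ^ 3 / c₀) * Φ x := by
          gcongr
          calc y⁻¹ ≤ (c₀ / U ^ 3)⁻¹ := by gcongr
            _ = U ^ 3 / c₀ := by rw [inv_div]
  have houter : ∀ n ∈ ns, ∫⁻ s in Icc B⁻¹ B, Φ (xn e n s) ≤ ENNReal.ofReal (U ^ 2 / (c₁ * σ)) * ∫⁻ x in xn e n '' Icc B⁻¹ B, Φ x := by
    intro n hn
    obtain ⟨hPr, hn1, hn2, hsp, hσl⟩ := hns n hn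
    have hdet := Pool.Agent.Helper60.LT.co_spec hPr.1
    have himg := lintegral_image_eq_lintegral_abs_deriv_mul (s := Icc B⁻¹ B) (f := xn e n)
      (f' := fun s => 2 * s * (fa93 e n * fb93 e n) * df e / (fa93 e n ^ 2 + s ^ 2 * fb93 e n ^ 2) ^ 2) measurableSet_Icc
      (fun s hs => by
        rw [hxn]
        exact (deriv93 he hdet (lt_of_lt_of_le (by positivity) hs.1)).hasDerivWithinAt)
      (fun s hs s' hs' h => by
        obtain ⟨-, -, hab, -⟩ := hb U σ s n hU hσ hPr hn1 hn2 hsp hσl hs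
        rw [hxn] at h
        exact inj93 he hdet hab (lt_of_lt_of_le (by positivity) hs.1) (lt_of_lt_of_le (by positivity) hs'.1) h) Φ
    have h1 : ENNReal.ofReal (c₁ * σ / U ^ 2) * ∫⁻ s in Icc B⁻¹ B, Φ (xn e n s) ≤ ∫⁻ x in xn e n '' Icc B⁻¹ B, Φ x := by
      rw [himg, ← lintegral_const_mul' _ _ ENNReal.ofReal_ne_top]
      refine setLIntegral_mono' measurableSet_Icc fun s hs => ?_
      obtain ⟨-, -, -, hx'⟩ := hb U σ s n hU hσ hPr hn1 hn2 hsp hσl hs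
      gcongr
    calc ∫⁻ s in Icc B⁻¹ B, Φ (xn e n s) = ENNReal.ofReal (U ^ 2 / (c₁ * σ)) * (ENNReal.ofReal (c₁ * σ / U ^ 2) * ∫⁻ s in Icc B⁻¹ B, Φ (xn e n s)) := by
          rw [← mul_assoc, ← ENNReal.ofReal_mul (by positivity)]
          have : U ^ 2 / (c₁ * σ) * (c₁ * σ / U ^ 2) = 1 := by field_simp
          rw [this, ENNReal.ofReal_one, one_mul]
      _ ≤ _ := by gcongr
  -- all `n`
  have hpt : ∀ x : ℝ, ∑ n ∈ ns, ∑' m : ℤ, (xn e n '' Icc B⁻¹ B).indicator Φ (x + m) ≤ Q * Φ x := by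
    intro x
    rw [← Summable.tsum_finsetSum (fun _ _ => ENNReal.summable), ENNReal.tsum_eq_iSup_sum]
    refine iSup_le fun T => ?_
    have h1 : ∀ (m : ℤ) (n : ℤ × ℤ), (xn e n '' Icc B⁻¹ B).indicator Φ (x + m) = if x + m ∈ xn e n '' Icc B⁻¹ B then Φ x else 0 := by
      intro m n
      rw [Set.indicator_apply, hΦz]
    simp only [h1]
    rw [Finset.sum_comm, ← Finset.sum_product' (f := fun (n : ℤ × ℤ) (m : ℤ) => if x + m ∈ xn e n '' Icc B⁻¹ B then Φ x else 0), ← Finset.sum_filter,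
      Finset.sum_const, nsmul_eq_mul]
    gcongr
    set F := (ns ×ˢ T).filter (fun q : (ℤ × ℤ) × ℤ => x + (q.2 : ℝ) ∈ xn e q.1 '' Icc B⁻¹ B) with hF
    set g : (ℤ × ℤ) × ℤ → (ℤ × ℤ) × (ℤ × ℤ) := fun q => (q.1, ((co q.1).1 - q.2 * q.1.1, (co q.1).2 - q.2 * q.1.2)) with hg
    have hinj : Set.InjOn g F := by
      intro q hq q' hq' h
      rw [hg] at h
      simp only [Prod.mk.injEq] at h
      obtain ⟨h1, h2, -⟩ := h
      rw [h1] at h2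
      have hmem : q'.1 ∈ ns := by
        have := (Finset.mem_filter.1 (Finset.mem_coe.1 hq')).1
        exact (Finset.mem_product.1 this).1
      have hpos : 0 < q'.1.1 := (hns _ hmem).1.2
      have h3 : q.2 * q'.1.1 = q'.2 * q'.1.1 := by linarith
      exact Prod.ext h1 (mul_right_cancel₀ hpos.ne' h3)
    rw [← Finset.card_image_of_injOn hinj]
    refine card93 (x := x) hC₁ hU (F.image g) ?_
    intro z hz
    obtain ⟨q, hq, rfl⟩ := Finset.mem_image.1 hz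
    obtain ⟨hq1, s, hs, hsx⟩ := Finset.mem_filter.1 hq
    obtain ⟨hPr, hn1, hn2, hsp, hσl⟩ := hns q.1 (Finset.mem_product.1 hq1).1
    have hdet := Pool.Agent.Helper60.LT.co_spec hPr.1
    have hs0 : 0 < s := lt_of_lt_of_le (by positivity) hs.1
    have hd2 : q.1.1 * ((co q.1).2 - q.2 * q.1.2) - q.1.2 * ((co q.1).1 - q.2 * q.1.1) = 1 := by rw [← hdet]; ring
    have hx2 : xx93 e q.1 ((co q.1).1 - q.2 * q.1.1, (co q.1).2 - q.2 * q.1.2) s = x := by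
      rw [xx_shift93 he hdet hs0, ← hxn, hsx]; ring
    obtain ⟨a1, a2, a3, a4⟩ := hnear U s x q.1 ((co q.1).1 - q.2 * q.1.1, (co q.1).2 - q.2 * q.1.2) hU hPr.2 hn1 hn2 hsp hd2 hs hx2
    exact ⟨hd2, a1, a2, a3, a4⟩
  have hsum : ∑ n ∈ ns, ∫⁻ x in xn e n '' Icc B⁻¹ B, Φ x ≤ Q * ∫⁻ x in Ico (0 : ℝ) 1, Φ x := by
    have hmI : ∀ n ∈ ns, Measurable ((xn e n '' Icc B⁻¹ B).indicator Φ) := fun n hn => hΦm.indicator (hcont n hn).measurableSet
    calc ∑ n ∈ ns, ∫⁻ x in xn e n '' Icc B⁻¹ B, Φ x = ∑ n ∈ ns, ∫⁻ x in Ico (0 : ℝ) 1, ∑' m : ℤ, (xn e n '' Icc B⁻¹ B).indicator Φ (x + m) := by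
          refine Finset.sum_congr rfl fun n hn => ?_
          rw [← lintegral_indicator (hcont n hn).measurableSet, per93 (hmI n hn)]
      _ = ∫⁻ x in Ico (0 : ℝ) 1, ∑ n ∈ ns, ∑' m : ℤ, (xn e n '' Icc B⁻¹ B).indicator Φ (x + m) := by
          rw [lintegral_finsetSum' _ (fun n hn => ?_)]
          exact (Measurable.tsum fun m => (hmI n hn).comp (measurable_id.add_const _)).aemeasurable
      _ ≤ ∫⁻ x in Ico (0 : ℝ) 1, Q * Φ x := lintegral_mono fun x => hpt x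
      _ = Q * ∫⁻ x in Ico (0 : ℝ) 1, Φ x := lintegral_const_mul' _ _ (ENNReal.natCast_ne_top _)
  calc ∑ n ∈ ns, ∫⁻ s in Icc B⁻¹ B, ∫⁻ r in Icc (X / B) (B * X), G (r * yn e n s) (xn e n s)
      ≤ ∑ n ∈ ns, ENNReal.ofReal (U ^ 3 / c₀) * (ENNReal.ofReal (U ^ 2 / (c₁ * σ)) * ∫⁻ x in xn e n '' Icc B⁻¹ B, Φ x) := by
        refine Finset.sum_le_sum fun n hn => ?_
        calc ∫⁻ s in Icc B⁻¹ B, ∫⁻ r in Icc (X / B) (B * X), G (r * yn e n s) (xn e n s) ≤ ∫⁻ s in Icc B⁻¹ B, ENNReal.ofReal (U ^ 3 / c₀) * Φ (xn e n s) :=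
              setLIntegral_mono' measurableSet_Icc fun s hs => hinner n hn s hs _
          _ = ENNReal.ofReal (U ^ 3 / c₀) * ∫⁻ s in Icc B⁻¹ B, Φ (xn e n s) := lintegral_const_mul' _ _ ENNReal.ofReal_ne_top
          _ ≤ _ := by gcongr; exact houter n hn
    _ = ENNReal.ofReal (U ^ 3 / c₀) * (ENNReal.ofReal (U ^ 2 / (c₁ * σ)) * ∑ n ∈ ns, ∫⁻ x in xn e n '' Icc B⁻¹ B, Φ x) := by
        rw [← Finset.mul_sum, ← Finset.mul_sum]
    _ ≤ ENNReal.ofReal (U ^ 3 / c₀) * (ENNReal.ofReal (U ^ 2 / (c₁ * σ)) * (Q * ∫⁻ x in Ico (0 : ℝ) 1, Φ x)) := by gcongr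
    _ = ENNReal.ofReal (U ^ 3 / c₀ * (U ^ 2 / (c₁ * σ)) * Q) * ∫⁻ x in Ico (0 : ℝ) 1, Φ x := by
        rw [ENNReal.ofReal_mul (by positivity), ENNReal.ofReal_mul (by positivity), ENNReal.ofReal_natCast]
        ring
    _ ≤ ENNReal.ofReal (C * U ^ 5 / σ) * ∫⁻ x in Ico (0 : ℝ) 1, Φ x := by
        gcongr
        calc U ^ 3 / c₀ * (U ^ 2 / (c₁ * σ)) * Q = Q / (c₀ * c₁) * U ^ 5 / σ := by field_simp
          _ ≤ C * U ^ 5 / σ := by gcongr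

end Pool.Agent.Helper60.RT
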